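import Mathlib

/-!
# Nonpositive eigenvalues from a subspace on which the form is nonpositive
-/

set_option autoImplicit false

open scoped Matrix
open Finset

namespace Pool.Agent.L7h11.NP

variable {V : Type} [Fintype V] [DecidableEq V]

/-- If the form of `A` is nonpositive on the image of an injective linear map from a space of dimension
`|K|`, then `A` has at least `|K|` nonpositive eigenvalues. (After `R113.IN.card_le_pos`.) -/
theorem card_le_nonpos {A : Matrix V V ℝ} (hA : A.IsHermitian) {K : Type} [Fintype K]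
    (ext : (K → ℝ) →ₗ[ℝ] (V → ℝ)) (hinj : ∀ z, ext z = 0 → z = 0)
    (hq : ∀ z, (ext z) ⬝ᵥ (A *ᵥ (ext z)) ≤ 0) :
    Fintype.card K ≤ (Finset.univ.filter (fun i => hA.eigenvalues i ≤ 0)).card := by
  by_contra hcon
  push Not at hcon
  set U : Matrix V V ℝ := (hA.eigenvectorUnitary : Matrix V V ℝ) with hU
  set I : Finset V := Finset.univ.filter (fun i => hA.eigenvalues i ≤ 0) with hI
  let f : (K → ℝ) →ₗ[ℝ] ({i // i ∈ I} → ℝ) :=
    (LinearMap.funLeft ℝ ℝ (fun i : {i // i ∈ I} => i.1)) ∘ₗ (Matrix.mulVecLin (star U)) ∘ₗ ext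
  have hker : LinearMap.ker f ≠ ⊥ := by
    apply LinearMap.ker_ne_bot_of_finrank_lt
    simpa using hcon
  obtain ⟨z, hz, hz0⟩ := (Submodule.ne_bot_iff _).1 hker
  set w : V → ℝ := ext z with hw
  set y : V → ℝ := star U *ᵥ w with hy
  have hy0 : ∀ i, hA.eigenvalues i ≤ 0 → y i = 0 := by
    intro i hi
    have hmem : i ∈ I := by simp only [hI, Finset.mem_filter, Finset.mem_univ, true_and]; exact hi
    have h1 : f z = 0 := hz
    have := congrFun h1 ⟨i, hmem⟩
    simpa [f, hy, hw, LinearMap.funLeft_apply] using this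
  have hquad : w ⬝ᵥ (A *ᵥ w) = ∑ i, hA.eigenvalues i * y i ^ 2 := by
    have hspec : A = U * Matrix.diagonal (RCLike.ofReal ∘ hA.eigenvalues : V → ℝ) * star U := by
      conv_lhs => rw [hA.spectral_theorem, Unitary.conjStarAlgAut_apply]
    have hT : star U = Uᵀ := by
      rw [Matrix.star_eq_conjTranspose, Matrix.conjTranspose_eq_transpose_of_trivial]
    conv_lhs => rw [hspec]
    rw [← Matrix.mulVec_mulVec, ← Matrix.mulVec_mulVec, ← hy, Matrix.dotProduct_mulVec,
      ← Matrix.mulVec_transpose, ← hT, ← hy]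
    simp only [dotProduct, Matrix.mulVec_diagonal, Function.comp_apply, RCLike.ofReal_real_eq_id,
      id_eq]
    refine Finset.sum_congr rfl fun i _ => ?_
    ring
  have hterm : ∀ i ∈ (Finset.univ : Finset V), 0 ≤ hA.eigenvalues i * y i ^ 2 := by
    intro i _
    by_cases hi : hA.eigenvalues i ≤ 0
    · rw [hy0 i hi]
      simp
    · push Not at hi
      positivity
  have h0 := hq z
  rw [← hw, hquad] at h0
  have h1 := (Finset.sum_eq_zero_iff_of_nonneg hterm).1 (le_antisymm h0 (Finset.sum_nonneg hterm))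
  have hyz : y = 0 := by
    funext i
    by_cases hi : hA.eigenvalues i ≤ 0
    · exact hy0 i hi
    · push Not at hi
      have := h1 i (Finset.mem_univ _)
      rcases mul_eq_zero.1 this with h2 | h2
      · exact absurd h2 hi.ne'
      · exact pow_eq_zero_iff (two_ne_zero) |>.1 h2
  have hwz : w = 0 := by
    have h2 : U * star U = 1 := by
      rw [hU]
      exact (Matrix.mem_unitaryGroup_iff).1 hA.eigenvectorUnitary.2
    have h3 : U *ᵥ y = w := by
      rw [hy, Matrix.mulVec_mulVec, h2, Matrix.one_mulVec]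
    rw [← h3, hyz, Matrix.mulVec_zero]
  exact hz0 (hinj z hwz)

end Pool.Agent.L7h11.NP
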