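import Mathlib

/-!
# Two vertices of a graph which agree on half of the others
-/

set_option autoImplicit false

open Finset

namespace Pool.Agent.L7h11.NP

variable {V : Type} [DecidableEq V]

theorem exists_pair (R : V → V → Prop) [DecidableRel R] (X : Finset V) (b : ℕ) (hb : 1 ≤ b)
    (hX : 2 * b + 2 ≤ X.card) : ∃ x ∈ X, ∃ y ∈ X, x ≠ y ∧
      b ≤ (X.filter (fun z => z ≠ x ∧ z ≠ y ∧ (R z x ↔ R z y))).card := by
  by_contra hcon
  push Not at hcon
  let al : V → V → ℤ := fun z x => if z ≠ x ∧ R z x then 1 else 0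
  let be : V → V → ℤ := fun z x => if z ≠ x ∧ ¬ R z x then 1 else 0
  let F : ℤ := ∑ z ∈ X, ∑ x ∈ X, ∑ y ∈ X, (al z x * al z y + be z x * be z y)
  obtain ⟨n, hndef⟩ : ∃ n : ℤ, n = (X.card : ℤ) := ⟨_, rfl⟩
  have hn : (2 * b + 2 : ℤ) ≤ n := by
    rw [hndef]
    exact_mod_cast hX
  have h1 : n * (n - 1) ^ 2 ≤ 2 * F := by
    have hz : ∀ z ∈ X, (n - 1) ^ 2 ≤
        2 * ∑ x ∈ X, ∑ y ∈ X, (al z x * al z y + be z x * be z y) := by
      intro z hz
      have e1 : ∑ x ∈ X, ∑ y ∈ X, (al z x * al z y + be z x * be z y) =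
          (∑ x ∈ X, al z x) ^ 2 + (∑ x ∈ X, be z x) ^ 2 := by
        simp only [Finset.sum_add_distrib, sq, Finset.sum_mul_sum]
      have e2 : ∑ x ∈ X, al z x + ∑ x ∈ X, be z x = n - 1 := by
        rw [← Finset.sum_add_distrib]
        have : ∀ x ∈ X, al z x + be z x = 1 - if z = x then 1 else 0 := by
          intro x _
          simp only [al, be]
          by_cases h : z = x
          · simp [h]
          · by_cases h' : R z x <;> simp [h, h']
        rw [Finset.sum_congr rfl this, Finset.sum_sub_distrib, Finset.sum_ite_eq]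
        simp [hz, hndef]
      rw [e1, ← e2]
      nlinarith [sq_nonneg (∑ x ∈ X, al z x - ∑ x ∈ X, be z x)]
    calc n * (n - 1) ^ 2 = ∑ z ∈ X, (n - 1) ^ 2 := by rw [Finset.sum_const, nsmul_eq_mul, ← hndef]
      _ ≤ ∑ z ∈ X, 2 * ∑ x ∈ X, ∑ y ∈ X, (al z x * al z y + be z x * be z y) :=
        Finset.sum_le_sum hz
      _ = 2 * F := by rw [← Finset.mul_sum]
  have h2 : F ≤ n * (n - 1) * b := by
    have e0 : F = ∑ x ∈ X, ∑ y ∈ X, ∑ z ∈ X, (al z x * al z y + be z x * be z y) := by
      show ∑ z ∈ X, ∑ x ∈ X, ∑ y ∈ X, (al z x * al z y + be z x * be z y) = _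
      rw [Finset.sum_comm]
      refine Finset.sum_congr rfl fun x _ => ?_
      rw [Finset.sum_comm]
    have e1 : ∀ x y z, al z x * al z y + be z x * be z y =
        if z ≠ x ∧ z ≠ y ∧ (R z x ↔ R z y) then 1 else 0 := by
      intro x y z
      simp only [al, be]
      by_cases h : z = x <;> by_cases h' : z = y <;> by_cases h3 : R z x <;> by_cases h4 : R z y <;>
        simp_all
    have e2 : ∀ x ∈ X, ∀ y ∈ X, ∑ z ∈ X, (al z x * al z y + be z x * be z y) ≤
        if x = y then n - 1 else (b : ℤ) - 1 := by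
      intro x hx y hy
      simp only [e1]
      rw [Finset.sum_boole]
      split_ifs with hxy
      · subst hxy
        have : (X.filter (fun z => z ≠ x ∧ z ≠ x ∧ (R z x ↔ R z x))) = X.erase x := by
          ext z
          simp [Finset.mem_erase, and_comm]
        rw [this, Finset.card_erase_of_mem hx]
        have : 0 < X.card := Finset.card_pos.2 ⟨x, hx⟩
        push_cast [Nat.cast_sub this]
        omega
      · have := hcon x hx y hy hxy
        push_cast
        omega
    rw [e0]
    calc _ ≤ ∑ x ∈ X, ∑ y ∈ X, (if x = y then n - 1 else (b : ℤ) - 1) :=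
          Finset.sum_le_sum fun x hx => Finset.sum_le_sum fun y hy => e2 x hx y hy
      _ = ∑ x ∈ X, ((n - 1) + (n - 1) * ((b : ℤ) - 1)) := by
          refine Finset.sum_congr rfl fun x hx => ?_
          have : ∀ y ∈ X, (if x = y then n - 1 else (b : ℤ) - 1) =
              ((b : ℤ) - 1) + (if x = y then n - 1 - ((b : ℤ) - 1) else 0) := by
            intro y _
            split_ifs <;> ring
          rw [Finset.sum_congr rfl this, Finset.sum_add_distrib, Finset.sum_ite_eq,
            Finset.sum_const, nsmul_eq_mul, ← hndef]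
          simp only [hx, if_true]
          ring
      _ = n * (n - 1) * b := by
          rw [Finset.sum_const, nsmul_eq_mul, ← hndef]
          ring
  have hb' : (1 : ℤ) ≤ b := by exact_mod_cast hb
  have h3 : n * (n - 1) * (n - 1) ≤ n * (n - 1) * (2 * b) := by nlinarith
  have h4 : 0 < n * (n - 1) := by nlinarith
  have h5 : n - 1 ≤ 2 * b := le_of_mul_le_mul_left h3 h4
  omega

end Pool.Agent.L7h11.NP
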