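import Pool.Agent.L7h11.NP.Lin
import Pool.Agent.L7h11.NP.Pair

/-!
# The recursion
-/

set_option autoImplicit false

open scoped Matrix
open Finset

namespace Pool.Agent.L7h11.NP

variable {V : Type} [Fintype V] [DecidableEq V]

theorem rec (G : SimpleGraph V) [DecidableRel G.Adj] (k : ℕ) : ∀ X : Finset V,
    3 * 2 ^ k ≤ X.card + 2 →
    ∃ ext : (Fin (k + 1) → ℝ) →ₗ[ℝ] (V → ℝ), (∀ z, ext z = 0 → z = 0) ∧
      (∀ z, ∀ v, v ∉ X → ext z v = 0) ∧
      ∀ z, (ext z) ⬝ᵥ (G.adjMatrix ℝ *ᵥ (ext z)) ≤ 0 := by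
  induction k with
  | zero =>
    intro X hX
    have hc : 0 < X.card := by
      rw [pow_zero] at hX
      omega
    obtain ⟨x, hx⟩ := Finset.card_pos.1 hc
    refine ⟨(LinearMap.proj (0 : Fin 1)).smulRight (Pi.single x (1 : ℝ)), ?_, ?_, ?_⟩
    · intro z hz
      funext i
      have h1 := congrFun hz x
      simp at h1
      refine Fin.cases ?_ (fun j => j.elim0) i
      exact h1
    · intro z v hv
      have : v ≠ x := fun h => hv (h ▸ hx)
      simp [Pi.single_apply, this]
    · intro z
      have h0 : (Pi.single x (1 : ℝ) : V → ℝ) ⬝ᵥ (G.adjMatrix ℝ *ᵥ (Pi.single x (1 : ℝ))) = 0 := by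
        rw [Matrix.mulVec_single_one, single_one_dotProduct]
        simp [Matrix.col]
      simp only [LinearMap.smulRight_apply, LinearMap.proj_apply, Matrix.mulVec_smul,
        smul_dotProduct, dotProduct_smul, h0, smul_zero, le_refl]
  | succ k ih =>
    intro X hX
    have h2 : 1 ≤ 2 ^ k := Nat.one_le_two_pow
    obtain ⟨x, hx, y, hy, hxy, hY⟩ := exists_pair G.Adj X (3 * 2 ^ k - 2) (by omega)
      (by rw [pow_succ] at hX; omega)
    set Y := X.filter (fun z => z ≠ x ∧ z ≠ y ∧ (G.Adj z x ↔ G.Adj z y)) with hYdef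
    obtain ⟨ext, hinj, hsup, hq⟩ := ih Y (by omega)
    have hxY : x ∉ Y := by simp [hYdef]
    have hyY : y ∉ Y := by simp [hYdef]
    set d : V → ℝ := Pi.single x (1 : ℝ) - Pi.single y (1 : ℝ) with hd
    have hdx : d x = 1 := by simp [hd, Pi.single_apply, hxy]
    have hdv : ∀ v, v ∉ X → d v = 0 := by
      intro v hv
      have h3 : v ≠ x := fun h => hv (h ▸ hx)
      have h4 : v ≠ y := fun h => hv (h ▸ hy)
      simp [hd, Pi.single_apply, h3, h4]
    have hAd : ∀ v, (G.adjMatrix ℝ *ᵥ d) v = G.adjMatrix ℝ v x - G.adjMatrix ℝ v y := by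
      intro v
      rw [hd, Matrix.mulVec_sub, Matrix.mulVec_single_one, Matrix.mulVec_single_one]
      rfl
    have hud : ∀ z, (ext z) ⬝ᵥ (G.adjMatrix ℝ *ᵥ d) = 0 := by
      intro z
      unfold dotProduct
      apply Finset.sum_eq_zero
      intro v _
      by_cases hv : v ∈ Y
      · rw [hYdef, Finset.mem_filter] at hv
        have h5 : G.adjMatrix ℝ v x = G.adjMatrix ℝ v y := by
          simp only [SimpleGraph.adjMatrix_apply]
          by_cases h6 : G.Adj v x
          · rw [if_pos h6, if_pos (hv.2.2.2.1 h6)]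
          · rw [if_neg h6, if_neg (fun h => h6 (hv.2.2.2.2 h))]
        rw [hAd, h5, sub_self, mul_zero]
      · rw [hsup z v hv, zero_mul]
    have hdu : ∀ z, d ⬝ᵥ (G.adjMatrix ℝ *ᵥ (ext z)) = 0 := by
      intro z
      rw [Matrix.dotProduct_mulVec, ← Matrix.mulVec_transpose, SimpleGraph.transpose_adjMatrix,
        dotProduct_comm]
      exact hud z
    have hdd : d ⬝ᵥ (G.adjMatrix ℝ *ᵥ d) ≤ 0 := by
      have : d ⬝ᵥ (G.adjMatrix ℝ *ᵥ d) = (G.adjMatrix ℝ *ᵥ d) x - (G.adjMatrix ℝ *ᵥ d) y := by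
        conv_lhs => rw [hd, sub_dotProduct, ← hd]
        rw [single_one_dotProduct, single_one_dotProduct]
      rw [this, hAd, hAd]
      simp only [SimpleGraph.adjMatrix_apply, SimpleGraph.irrefl, if_false]
      by_cases h6 : G.Adj x y
      · rw [if_pos h6, if_pos h6.symm]
        norm_num
      · rw [if_neg h6, if_neg (fun h => h6 h.symm)]
        norm_num
    let E : (Fin (k + 1 + 1) → ℝ) →ₗ[ℝ] (V → ℝ) := ext.comp (LinearMap.funLeft ℝ ℝ Fin.succ) +
      (LinearMap.proj (0 : Fin (k + 1 + 1))).smulRight d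
    refine ⟨E, ?_, ?_, ?_⟩
    · intro z hz
      have h7 : ∀ v, ext (fun i => z i.succ) v + z 0 * d v = 0 := fun v => congrFun hz v
      have h8 : z 0 = 0 := by
        have := h7 x
        rw [hsup _ x hxY, hdx] at this
        linarith
      have h9 : ext (fun i => z i.succ) = 0 := by
        funext v
        have := h7 v
        rw [h8] at this
        simpa using this
      have h10 := hinj _ h9
      funext i
      refine Fin.cases ?_ (fun j => ?_) i
      · exact h8
      · exact congrFun h10 j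
    · intro z v hv
      have h11 : v ∉ Y := fun h => hv (Finset.mem_filter.1 h).1
      show ext (fun i => z i.succ) v + z 0 * d v = 0
      rw [hsup _ v h11, hdv v hv]
      ring
    · intro z
      have h12 : E z = ext (fun i => z i.succ) + z 0 • d := rfl
      rw [h12, Matrix.mulVec_add, Matrix.mulVec_smul, add_dotProduct, dotProduct_add,
        dotProduct_add, smul_dotProduct, smul_dotProduct, dotProduct_smul, dotProduct_smul,
        hud, hdu]
      simp only [smul_eq_mul, mul_zero, add_zero, zero_add]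
      have h13 := hq (fun i => z i.succ)
      have h14 : z 0 * (z 0 * (d ⬝ᵥ (G.adjMatrix ℝ *ᵥ d))) ≤ 0 := by
        nlinarith [mul_self_nonneg (z 0)]
      linarith

end Pool.Agent.L7h11.NP
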